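import Pool.Agent.H79.IZ.Final2
import Pool.Agent.H83.TW.Types

/-!
# A stable, not superstable theory with a consistently `Δ¹₁` isomorphism relation

The statement uses the definitions of `Pool/Agent/H85/Forcing/Defs.lean` (models of ZFC),
`Pool/Agent/H85/Forcing/OSDefs.lean` and `Pool/Agent/H79/IZ/Defs.lean` (set-theoretic notions
relativized to a model), and of `Pool/Agent/H83/TW/Defs.lean` (the theory `TW`).

Proof: `κ` is the least inaccessible cardinal of a universe. An iteration of length a larger
inaccessible cardinal with conditions of size `< κ` adds a tree `T*` of height `κ` without branches of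
length `κ`, sealed at the levels of cofinality `ω₁`, and embeds in `T*` the tree of bounded partial
isomorphisms of every two non-isomorphic sequences of refining equivalence relations on `κ`. The main
point is that quotients of the iteration do not add isomorphisms between such sequences.
-/

namespace Pool.Agent.Results.MP_4c8320_lc.ConsistentDelta11

open H85.Forcing H79.IZ Pool.Agent.H83.TW Cardinal FirstOrder.Language

theorem card_LW : LW.card ≤ ℵ₀ := by
  have h : Countable (Σ l, LW.Relations l) := by
    have hsurj : Function.Surjective (fun n : ℕ => (⟨2, eSym n⟩ : Σ l, LW.Relations l)) := by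
      rintro ⟨l, R⟩
      cases R with
      | E n => exact ⟨n, rfl⟩
    exact hsurj.countable
  have h' : Countable LW.Symbols := by
    have h1 : Countable (Σ l, LW.Functions l) := by
      have : IsEmpty (Σ l, LW.Functions l) := ⟨fun x => Empty.elim x.2⟩
      infer_instance
    unfold Symbols
    infer_instance
  exact mk_le_aleph0

/-- `TW`, the theory of refining equivalence relations with infinite splitting, is a complete theory in
a countable language, stable and not superstable; and there is a model `(M, E)` of ZFC with a regular
uncountable `kap`, `kap^(<kap) = kap`, in which, for every coding of structures by elements of `2^kap`,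
the isomorphism relation of the models of `TW` with universe `kap` is `Δ¹₁`. -/
theorem result :
    (LW.card ≤ ℵ₀ ∧ TW.IsComplete ∧ Stable.{0, 0, 0} TW ∧ ¬ Superstable.{0, 0, 0} TW ∧
      ∀ (N : Type) [LW.Structure N], N ⊨ TW ↔ RefEq (relE N)) ∧
    ∃ (M : Type 3) (E : M → M → Prop), IsZFC E ∧ ∃ om two kap : M,
      IsOm E om ∧ IsTwo E two ∧ IsUncReg E kap ∧ PowLt E kap ∧ (∃ e, IsCode E om kap e) ∧
      ∀ e, IsCode E om kap e → Delta11 E two kap (Isom E om kap e) :=
  ⟨⟨card_LW, isComplete, stable, not_superstable, fun N _ => model_iff N⟩, H79.IZ.main⟩

end Pool.Agent.Results.MP_4c8320_lc.ConsistentDelta11
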